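import Pool.Agent.Helper69.RN.St
import Pool.Agent.Helper86.RG.CombB

namespace Pool.Agent.Helper86.RN

/-- **COMB** -/
theorem st_CB : Pool.Agent.Helper69.RN.ST_CB :=
  Pool.Agent.Helper86.RG.comb_slack

end Pool.Agent.Helper86.RN
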