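import Pool.Agent.Helper86.RN.AS
import Pool.Agent.Helper86.RN.CB
import Pool.Agent.Helper46.RN.CJ
import Pool.Agent.Helper15.RN.BR
import Pool.Agent.Helper68.RN.FU
import Pool.Agent.Helper88.RN.TH
import Pool.Agent.Helper35.RN.RD
import Pool.Agent.Helper61.RN.Bg
import Pool.Agent.Helper61.W.K

/-!
# THEOREM RING NOISE: closing file

`rn0` (finite form without base), `rn` (finite form over a base), `rnec` (exact calculus).
-/

set_option autoImplicit false

namespace Pool.Agent.Helper86.RN

/-- RING NOISE, finite form without base -/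
theorem rn0 : Pool.Agent.Helper69.RN.ST_RN0 :=
  st_AS (Pool.Agent.Helper46.RN.st_CJ Pool.Agent.Helper92.W.st_K) Pool.Agent.Helper15.RN.st_BR
    Pool.Agent.Helper69.RN.st_TH st_CB Pool.Agent.Helper68.RN.st_FU

/-- RING NOISE, finite form over a base -/
theorem rn : Pool.Agent.Helper69.RN.ST_RN :=
  Pool.Agent.Helper35.RN.st_RD rn0

/-- RING NOISE, exact calculus -/
theorem rnec : Pool.Agent.Helper69.RN.RNEC :=
  Pool.Agent.Helper61.EC.st_BG rn

end Pool.Agent.Helper86.RN
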