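import Pool.Agent.Helper69.RN.St

/-!
# RING NOISE, module AS: assembly without base (counting of tuples along paths)
-/

set_option autoImplicit false

namespace Pool.Agent.Helper86.RN

open Finset Pool.Agent.Helper69.RK Pool.Agent.Helper61.GL Pool.Agent.Helper46.WF Pool.Agent.Helper92.W
  Pool.Agent.Helper69.RN

section

variable {Ω : Type} [Fintype Ω]

open Classical in
/-- many good tuples on every path of `G` -/
theorem as_count {ι : Type} (μ : Ω → ℝ) (hμ : ∀ ω, 0 ≤ μ ω) (S : Finset ι) (E : ι → Ω → Prop)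
    (G : Ω → Prop) (K : ℝ) (hK : ∀ ω, G ω → K ≤ ((S.filter (fun m => E m ω)).card : ℝ)) :
    K * Pw μ G ≤ ∑ m ∈ S, Pw μ (E m) := by
  unfold Pw
  rw [Finset.sum_comm, Finset.mul_sum]
  refine Finset.sum_le_sum fun ω _ => ?_
  have h1 : ∑ m ∈ S, (if E m ω then μ ω else 0) = ((S.filter (fun m => E m ω)).card : ℝ) * μ ω := by
    rw [← Finset.sum_filter, Finset.sum_const, nsmul_eq_mul]
  rw [h1]
  by_cases hG : G ω
  · rw [if_pos hG]
    exact mul_le_mul_of_nonneg_right (hK ω hG) (hμ ω)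
  · rw [if_neg hG, mul_zero]
    exact mul_nonneg (Nat.cast_nonneg _) (hμ ω)

theorem as_exi {ι : Type} [Fintype ι] (w : Ω → ℝ) (hw : ∀ ω, 0 ≤ w ω) (B : ι → Ω → Prop) :
    Pw w (fun ω => ∃ i, B i ω) ≤ ∑ i, Pw w (B i) := by
  classical
  unfold Pw
  rw [Finset.sum_comm]
  refine Finset.sum_le_sum fun ω _ => ?_
  have hnn : ∀ i, 0 ≤ if B i ω then w ω else 0 := by
    intro i
    split_ifs
    · exact hw ω
    · exact le_rfl
  by_cases h : ∃ i, B i ω
  · rw [if_pos h]
    obtain ⟨i, hi⟩ := h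
    have h4 := Finset.single_le_sum (f := fun i => if B i ω then w ω else 0)
      (fun j _ => hnn j) (Finset.mem_univ i)
    simp only [if_pos hi] at h4
    exact h4
  · rw [if_neg h]
    exact Finset.sum_nonneg fun i _ => hnn i

/-- the scale of `y` -/
theorem as_T (y η : ℝ) (n : ℕ) (h1 : |y| ≤ 1) (h2 : (2 : ℝ) ^ (-(η * n)) ≤ |y|) :
    ∃ T : ℕ, (T : ℝ) ≤ η * n + 1 ∧ 1 ≤ |y| * 2 ^ T ∧ |y| * 2 ^ T ≤ 2 ^ 2 := by
  have hy : 0 < |y| := lt_of_lt_of_le (Real.rpow_pos_of_pos two_pos _) h2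
  set L : ℝ := -Real.logb 2 |y| with hL
  have hL0 : 0 ≤ L := by
    rw [hL]
    have := Real.logb_nonpos (b := 2) one_lt_two hy.le h1
    linarith
  have hL1 : L ≤ η * n := by
    have h3 : Real.logb 2 ((2 : ℝ) ^ (-(η * n))) ≤ Real.logb 2 |y| :=
      Real.logb_le_logb_of_le one_lt_two (Real.rpow_pos_of_pos two_pos _) h2
    rw [Real.logb_rpow two_pos (by norm_num)] at h3
    linarith
  have hyL : |y| = (2 : ℝ) ^ (-L) := by
    rw [hL, neg_neg, Real.rpow_logb two_pos (by norm_num) hy]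
  refine ⟨⌈L⌉₊, ?_, ?_, ?_⟩
  · have := Nat.ceil_lt_add_one hL0
    linarith
  · have h3 := Nat.le_ceil L
    rw [hyL, ← Real.rpow_natCast, ← Real.rpow_add two_pos]
    have h4 : (2 : ℝ) ^ (0 : ℝ) ≤ (2 : ℝ) ^ (-L + (⌈L⌉₊ : ℝ)) :=
      Real.rpow_le_rpow_of_exponent_le one_le_two (by linarith)
    rwa [Real.rpow_zero] at h4
  · have h3 := Nat.ceil_lt_add_one hL0
    rw [hyL, ← Real.rpow_natCast, ← Real.rpow_add two_pos]
    have h4 : (2 : ℝ) ^ (-L + (⌈L⌉₊ : ℝ)) ≤ (2 : ℝ) ^ (1 : ℝ) :=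
      Real.rpow_le_rpow_of_exponent_le one_le_two (by linarith)
    rw [Real.rpow_one] at h4
    linarith

open Classical in
/-- shift of the deficient levels -/
theorem as_shift (P : ℕ → Prop) (n s : ℕ) :
    (((range (n + 1)).filter (fun t => P t)).card : ℝ) ≤
      s + 1 + (((range n).filter (fun m => m + s ≤ n ∧ P (m + s))).card : ℝ) := by
  have h1 : (range (n + 1)).filter (fun t => P t) ⊆
      (range s ∪ {n}) ∪ ((range n).filter (fun m => m + s ≤ n ∧ P (m + s))).image (fun m => m + s) := by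
    intro t ht
    have ht' := Finset.mem_filter.1 ht
    have ht1 := Finset.mem_range.1 ht'.1
    rw [Finset.mem_union, Finset.mem_union, Finset.mem_range, Finset.mem_singleton, Finset.mem_image]
    by_cases h2 : t < s
    · exact Or.inl (Or.inl h2)
    by_cases h3 : t = n
    · exact Or.inl (Or.inr h3)
    right
    have h4 : t - s + s = t := by omega
    refine ⟨t - s, Finset.mem_filter.2 ⟨Finset.mem_range.2 (by omega), ?_, ?_⟩, h4⟩
    · omega
    · rw [h4]
      exact ht'.2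
  have h2 := Finset.card_le_card h1
  have h3 := Finset.card_union_le (range s ∪ {n})
    (((range n).filter (fun m => m + s ≤ n ∧ P (m + s))).image (fun m => m + s))
  have h4 := Finset.card_union_le (range s) ({n} : Finset ℕ)
  have h5 := Finset.card_image_le (s := (range n).filter (fun m => m + s ≤ n ∧ P (m + s))) (f := fun m => m + s)
  rw [Finset.card_range, Finset.card_singleton] at h4
  have h6 : ((range (n + 1)).filter (fun t => P t)).card ≤
      s + 1 + ((range n).filter (fun m => m + s ≤ n ∧ P (m + s))).card := by omega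
  exact_mod_cast h6

end

/-- **AS**: assembly without base -/
theorem st_AS : Pool.Agent.Helper69.RN.ST_AS := by
  classical
  intro hCJ hBR hTH hCB hFU γ ε hγ hγ1 hε
  obtain ⟨c, ε', hc, hc1, hε', hFU⟩ := hFU ε hε
  obtain ⟨j, M, cC, ηC, hcC, hηC, nC, hCB⟩ := hCB (γ / 2) (ε' / 2) (by linarith) (by linarith) (by linarith)
  obtain ⟨ρ0, a0, ha0, ha01, hBR⟩ := hBR γ hγ hγ1
  set J : ℝ := (j : ℝ) + 1 with hJ
  have hJ0 : 0 < J := by positivity
  set MM : ℝ := (M : ℝ) + 1 with hMM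
  have hMM0 : 0 < MM := by positivity
  set δ1 : ℝ := cC * ε' / (4 * J * MM) with hδ1
  have hδ10 : 0 < δ1 := by positivity
  set e1 : ℝ := min ηC (ε' / (2 * J)) with he1
  have he10 : 0 < e1 := lt_min hηC (by positivity)
  obtain ⟨ηB, hηB, nB, hBR⟩ := hBR e1 he10
  obtain ⟨R0, hCJ⟩ := hCJ j c (a0 * δ1) (cC * ε' / 4) hc hc1 (by positivity) (by positivity) (ρ0 + M) 2
  obtain ⟨ηJ, hηJ, nJ, hCJ⟩ := hCJ (max R0 1) (le_max_left _ _)
  obtain ⟨nF, hFU⟩ := hFU (max R0 1) (le_max_right _ _)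
  set R : ℕ := max R0 1 with hR
  set K0 : ℕ := j * (ρ0 + M + 2) + (ρ0 + M) with hK0
  set η : ℝ := min (min ηB ηJ) (ε' / 4) with hη
  have hη0 : 0 < η := lt_min (lt_min hηB hηJ) (by linarith)
  refine ⟨j, η, hη0, max (max nC nB) (max (max nJ nF) (max 1 ⌈4 * ((K0 : ℝ) + 2) / ε'⌉₊)), ?_⟩
  intro n hn Ω _ μ z κ y hR1
  have hnC : nC ≤ n := le_trans (le_trans (le_max_left _ _) (le_max_left _ _)) hn
  have hnB : nB ≤ n := le_trans (le_trans (le_max_right _ _) (le_max_left _ _)) hn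
  have hnJ : nJ ≤ n := le_trans (le_trans (le_trans (le_max_left _ _) (le_max_left _ _)) (le_max_right _ _)) hn
  have hnF : nF ≤ n := le_trans (le_trans (le_trans (le_max_right _ _) (le_max_left _ _)) (le_max_right _ _)) hn
  have hn1 : 1 ≤ n := le_trans (le_trans (le_trans (le_max_left _ _) (le_max_right _ _)) (le_max_right _ _)) hn
  have hnE : ⌈4 * ((K0 : ℝ) + 2) / ε'⌉₊ ≤ n :=
    le_trans (le_trans (le_trans (le_max_right _ _) (le_max_right _ _)) (le_max_right _ _)) hn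
  have hnE' : 4 * ((K0 : ℝ) + 2) ≤ ε' * n := by
    have h1 : 4 * ((K0 : ℝ) + 2) / ε' ≤ n := (Nat.le_ceil _).trans (by exact_mod_cast hnE)
    rw [div_le_iff₀ hε'] at h1
    linarith
  have hnpos : (0 : ℝ) < n := by exact_mod_cast hn1
  have hηB' : η ≤ ηB := (min_le_left _ _).trans (min_le_left _ _)
  have hηJ' : η ≤ ηJ := (min_le_left _ _).trans (min_le_right _ _)
  have hηE' : η ≤ ε' / 4 := min_le_right _ _
  obtain ⟨hμ, hm, hz, hk, hy1, hy2, hind, habs, hbr⟩ := hR1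
  refine hFU n hnF Ω μ z hμ hm hz ?_
  obtain ⟨T, hT, hT1, hT2⟩ := as_T y η n hy1 hy2
  -- good paths
  set Bad : Fin (j + 1) → Ω → Prop := fun i ω => ∃ r : ℕ, r ≤ n ∧
      (((range r).filter (fun l => NA μ (κ i) ρ0 a0 l ω)).card : ℝ) < γ / 2 * r - e1 * n with hBad
  have hBadP : ∀ i, Pw μ (Bad i) ≤ e1 := by
    intro i
    refine hBR n hnB Ω μ (κ i) hμ hm (hk i) ?_
    refine le_trans (Pw_mono μ hμ fun ω _ h => ?_) ((hbr i).trans hηB')
    obtain ⟨r, h1, h2⟩ := h
    refine ⟨r, h1, lt_of_lt_of_le h2 ?_⟩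
    have := mul_le_mul_of_nonneg_right hηB' hnpos.le
    linarith
  set F : Ω → Prop := fun ω => ε' * n ≤ (((range (n + 1)).filter (fun t => DL μ z c R t ω)).card : ℝ) with hF
  set G : Ω → Prop := fun ω => F ω ∧ ∀ i, ¬ Bad i ω with hG
  set E : (Fin (j + 1) → ℕ) → Ω → Prop := fun m ω => (∑ i, m i + T + K0 ≤ n ∧ DL μ z c R (∑ i, m i + T + K0) ω) ∧
      ∀ i, ∃ u : ℕ, u < M ∧ NA μ (κ i) ρ0 a0 (m i + u) ω with hE
  -- tuples on a good path
  have hpath : ∀ ω, G ω → cC * (n : ℝ) ^ (j + 1) ≤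
      (((Fintype.piFinset (fun _ : Fin (j + 1) => range n)).filter (fun m => E m ω)).card : ℝ) := by
    intro ω hω
    obtain ⟨hω1, hω2⟩ := hω
    set D : Finset ℕ := (range n).filter
      (fun m => m + (T + K0) ≤ n ∧ DL μ z c R (m + (T + K0)) ω) with hD
    have h1 := as_shift (fun t => DL μ z c R t ω) n (T + K0)
    have h2 : ε' / 2 * n ≤ (D.card : ℝ) := by
      have h3 : ε' * n ≤ (((range (n + 1)).filter (fun t => DL μ z c R t ω)).card : ℝ) := hω1
      have h4 : ((T + K0 : ℕ) : ℝ) = T + K0 := by push_cast; ring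
      rw [h4] at h1
      have h5 := mul_le_mul_of_nonneg_right hηE' hnpos.le
      linarith
    have h3 := hCB n hnC (fun i => (range n).filter (fun l => NA μ (κ i) ρ0 a0 l ω)) D
      (fun i => Finset.filter_subset _ _) (fun i r hr => ?_) (Finset.filter_subset _ _) h2
    · refine h3.trans ?_
      have h4 : (Fintype.piFinset (fun _ : Fin (j + 1) => range n)).filter
          (fun m => (∀ i, ∃ u : ℕ, u < M ∧ m i + u ∈ (range n).filter (fun l => NA μ (κ i) ρ0 a0 l ω)) ∧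
            ∑ i, m i ∈ D) ⊆
          (Fintype.piFinset (fun _ : Fin (j + 1) => range n)).filter (fun m => E m ω) := by
        intro m hm'
        have h5 := Finset.mem_filter.1 hm'
        refine Finset.mem_filter.2 ⟨h5.1, ?_, fun i => ?_⟩
        · have h6 := (Finset.mem_filter.1 h5.2.2).2
          rw [← add_assoc] at h6
          exact h6
        · obtain ⟨u, hu, hu2⟩ := h5.2.1 i
          exact ⟨u, hu, (Finset.mem_filter.1 hu2).2⟩
      exact_mod_cast Finset.card_le_card h4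
    · have h4 := not_exists.1 (hω2 i) r
      have h5 : ¬ ((((range r).filter (fun l => NA μ (κ i) ρ0 a0 l ω)).card : ℝ) < γ / 2 * r - e1 * n) :=
        fun h => h4 ⟨hr, h⟩
      have h6 : ((range n).filter (fun l => NA μ (κ i) ρ0 a0 l ω)).filter (fun m => m < r) =
          (range r).filter (fun l => NA μ (κ i) ρ0 a0 l ω) := by
        ext l
        simp only [Finset.mem_filter, Finset.mem_range]
        constructor
        · rintro ⟨⟨_, h7⟩, h8⟩
          exact ⟨h8, h7⟩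
        · rintro ⟨h7, h8⟩
          exact ⟨⟨by omega, h8⟩, h7⟩
      rw [h6]
      have h7 : e1 * n ≤ ηC * n := mul_le_mul_of_nonneg_right (min_le_left _ _) hnpos.le
      have h8 := not_lt.1 h5
      linarith
  have hpath2 : ∀ ω, G ω → cC * (n : ℝ) ^ (j + 1) ≤
      ((@Finset.filter _ (fun m => E m ω) (fun m => Classical.propDecidable (E m ω))
        (Fintype.piFinset (fun _ : Fin (j + 1) => range n))).card : ℝ) := by
    intro ω hω
    refine (hpath ω hω).trans (le_of_eq ?_)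
    norm_cast
    apply congrArg Finset.card
    ext m
    simp only [Finset.mem_filter]
  have hcount := as_count μ hμ (Fintype.piFinset (fun _ : Fin (j + 1) => range n)) E G _ hpath2
  -- the tuples are rare
  set Q : (Fin (j + 1) → ℕ) → Ω → Prop := fun l ω =>
      ∑ i, l i + T + (j * (ρ0 + M + 2) + (ρ0 + M)) ≤ n ∧ 1 ≤ |y| * 2 ^ T ∧
      DL μ z c R (∑ i, l i + T + (j * (ρ0 + M + 2) + (ρ0 + M))) ω ∧
      ∀ i, NA μ (κ i) (ρ0 + M) (a0 * δ1) (l i) ω with hQ
  have hQs : ∑ l ∈ Fintype.piFinset (fun _ : Fin (j + 1) => range n), Pw μ (Q l) ≤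
      cC * ε' / 4 * (n : ℝ) ^ (j + 1) := by
    refine hCJ n T hnJ Ω Unit μ z (fun _ => ()) (fun _ => y) κ hμ hm hz hk (fun _ _ => hT2) ?_ ?_
    · have h1 : Hh μ (fun _ : Ω => ()) = 0 := ch_zero μ _ _ fun _ _ _ _ _ => rfl
      have h2 : Hh μ (fun ω => (fl n (z ω), (), fun i => κ i ω)) = Hh μ (fun ω => (fl n (z ω), fun i => κ i ω)) := by
        apply ch_congr_left
        intro ω ω' _ _ _
        rw [Prod.mk.injEq, Prod.mk.injEq, Prod.mk.injEq]
        exact ⟨fun h => ⟨h.1, h.2.2⟩, fun h => ⟨h.1, rfl, h.2⟩⟩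
      rw [h1, h2]
      have := mul_le_mul_of_nonneg_right hηJ' hnpos.le
      linarith
    · have h1 : (fun ω => fl n (z ω + y * ∏ i, κ i ω)) = (fun ω => fl n (z ω + (∏ i, κ i ω) * y)) := by
        funext ω
        rw [mul_comm y]
      show CH μ (fun ω => fl n (z ω + y * ∏ i, κ i ω)) (fun _ => ()) ≤ _
      rw [h1]
      have := mul_le_mul_of_nonneg_right hηJ' hnpos.le
      have h2 : CH μ (fun ω => fl n (z ω + (∏ i, κ i ω) * y)) (fun _ => ()) =
        Hh μ (fun ω => fl n (z ω + (∏ i, κ i ω) * y)) := rfl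
      rw [h2]
      linarith
  have hEl : ∀ l : Fin (j + 1) → ℕ, Pw μ (E l) ≤ Pw μ (Q l) + cC * ε' / 4 := by
    intro l
    set W : Fin (j + 1) × Fin M → Ω → Prop := fun p ω =>
      NA μ (κ p.1) ρ0 a0 (l p.1 + p.2) ω ∧ ¬ NA μ (κ p.1) (ρ0 + M) (a0 * δ1) (l p.1) ω with hW
    have h1 : Pw μ (E l) ≤ Pw μ (fun ω => Q l ω ∨ ∃ p, W p ω) := by
      refine Pw_mono μ hμ fun ω _ h => ?_
      by_cases h2 : ∀ i, NA μ (κ i) (ρ0 + M) (a0 * δ1) (l i) ω
      · exact Or.inl ⟨h.1.1, hT1, h.1.2, h2⟩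
      · right
        obtain ⟨i, hi⟩ := not_forall.1 h2
        obtain ⟨u, hu, hu2⟩ := h.2 i
        exact ⟨(i, ⟨u, hu⟩), hu2, hi⟩
    have h2 := Pw_or μ hμ (Q l) (fun ω => ∃ p, W p ω)
    have h3 := as_exi μ hμ W
    have h4 : ∀ p, Pw μ (W p) ≤ δ1 := by
      intro p
      have h5 := hTH Ω μ (κ p.1) hμ hm ρ0 (l p.1) p.2 M a0 (a0 * δ1) p.2.2.le ha0 (by positivity)
      rw [mul_div_cancel_left₀ _ ha0.ne'] at h5
      exact h5
    have h5 : ∑ p, Pw μ (W p) ≤ J * M * δ1 := by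
      refine (Finset.sum_le_card_nsmul _ _ δ1 fun p _ => h4 p).trans (le_of_eq ?_)
      rw [nsmul_eq_mul, Finset.card_univ, Fintype.card_prod, Fintype.card_fin, Fintype.card_fin]
      push_cast
      ring
    have h6 : J * M * δ1 ≤ cC * ε' / 4 := by
      have h7 : J * MM * δ1 = cC * ε' / 4 := by
        rw [hδ1]
        field_simp
      have h8 : J * M * δ1 ≤ J * MM * δ1 := by
        refine mul_le_mul_of_nonneg_right (mul_le_mul_of_nonneg_left ?_ hJ0.le) hδ10.le
        rw [hMM]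
        linarith
      linarith
    linarith
  have hEs : ∑ l ∈ Fintype.piFinset (fun _ : Fin (j + 1) => range n), Pw μ (E l) ≤
      cC * ε' / 2 * (n : ℝ) ^ (j + 1) := by
    have h1 : ∑ l ∈ Fintype.piFinset (fun _ : Fin (j + 1) => range n), Pw μ (E l) ≤
        ∑ l ∈ Fintype.piFinset (fun _ : Fin (j + 1) => range n), (Pw μ (Q l) + cC * ε' / 4) :=
      Finset.sum_le_sum fun l _ => hEl l
    rw [Finset.sum_add_distrib, Finset.sum_const, nsmul_eq_mul, Fintype.card_piFinset_const,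
      Finset.card_range] at h1
    push_cast at h1
    linarith
  have hGP : Pw μ G ≤ ε' / 2 := by
    have h1 : cC * (n : ℝ) ^ (j + 1) * Pw μ G ≤ cC * (n : ℝ) ^ (j + 1) * (ε' / 2) := by
      refine (hcount.trans hEs).trans (le_of_eq ?_)
      ring
    exact le_of_mul_le_mul_left h1 (by positivity)
  have hFin : Pw μ F ≤ Pw μ (fun ω => G ω ∨ ∃ i, Bad i ω) := by
    refine Pw_mono μ hμ fun ω _ h => ?_
    by_cases h2 : ∃ i, Bad i ω
    · exact Or.inr h2
    · exact Or.inl ⟨h, fun i hi => h2 ⟨i, hi⟩⟩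
  have h1 := Pw_or μ hμ G (fun ω => ∃ i, Bad i ω)
  have h2 := as_exi μ hμ Bad
  have h3 : ∑ i, Pw μ (Bad i) ≤ ε' / 2 := by
    refine (Finset.sum_le_card_nsmul _ _ e1 fun i _ => hBadP i).trans ?_
    rw [nsmul_eq_mul, Finset.card_univ, Fintype.card_fin]
    have h4 : e1 ≤ ε' / (2 * J) := min_le_right _ _
    have h5 : ((j + 1 : ℕ) : ℝ) = J := by push_cast; rfl
    rw [h5]
    have h6 : J * (ε' / (2 * J)) = ε' / 2 := by field_simp
    have h7 := mul_le_mul_of_nonneg_left h4 hJ0.le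
    linarith
  show Pw μ F ≤ ε'
  linarith

end Pool.Agent.Helper86.RN
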